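import Mathlib

namespace Pool.Agent.Results.MP_2d70c5_nt.Example

open Finset

/-- `H d n`: the number of permutations of an `n`-element set all of whose cycles have length `1`
or `d` (`cycleType` lists the lengths of the cycles of length `≥ 2`) -/
def H (d n : ℕ) : ℕ :=
  (univ.filter (fun σ : Equiv.Perm (Fin n) => ∀ k ∈ σ.cycleType, k = d)).card

lemma H_eq (d n : ℕ) (h2 : 2 ≤ d) (h1 : d ≤ n) (h3 : n < 2 * d) :
    H d n = 1 + n.factorial / ((n - d).factorial * d) := by
  have e : univ.filter (fun σ : Equiv.Perm (Fin n) => ∀ k ∈ σ.cycleType, k = d) =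
      univ.filter (fun σ : Equiv.Perm (Fin n) => σ.cycleType = 0) ∪
      univ.filter (fun σ : Equiv.Perm (Fin n) => σ.cycleType = {d}) := by
    ext σ
    simp only [mem_filter, mem_univ, true_and, mem_union]
    constructor
    · intro h
      have h4 := Multiset.eq_replicate_card.mpr h
      have h5 := σ.sum_cycleType_le
      rw [h4, Multiset.sum_replicate, Fintype.card_fin, smul_eq_mul] at h5
      have h6 : σ.cycleType.card < 2 := by
        by_contra hc
        have := Nat.mul_le_mul_right d (not_lt.mp hc)
        omega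
      rw [h4]
      interval_cases σ.cycleType.card <;> simp
    · rintro (h | h) <;> simp [h]
  rw [H, e, card_union_of_disjoint, Equiv.Perm.card_of_cycleType, Equiv.Perm.card_of_cycleType]
  · simp [h1, h2, Nat.div_self (Nat.factorial_pos n)]
  · rw [disjoint_filter]
    intro σ _ h h'
    rw [h] at h'
    exact absurd h' (by simp)

/-- `H₄₂(49) = H₄₅(47)`. -/
theorem result : ∃ a b n m : ℕ, 2 ≤ a ∧ a < b ∧ a ≤ n ∧ b ≤ m ∧ H a n = H b m := by
  refine ⟨42, 45, 49, 47, by norm_num, by norm_num, by norm_num, by norm_num, ?_⟩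
  rw [H_eq 42 49 (by norm_num) (by norm_num) (by norm_num),
    H_eq 45 47 (by norm_num) (by norm_num) (by norm_num)]
  decide +kernel

end Pool.Agent.Results.MP_2d70c5_nt.Example
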